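import Pool.Agent.Lib.MP_eff972_al.Defs

/-!
# Comparison of `n ^ 2 log n` with powers of `n`
-/

namespace Pool.Agent.Lib.MP_eff972_al

/-- the function `n ^ 2 log n` -/
def sqlog (n : ℕ) : ℕ := n ^ 2 * Nat.log 2 n

lemma sqlog_mono : Monotone sqlog := by
  intro m n h
  unfold sqlog
  have : Nat.log 2 m ≤ Nat.log 2 n := Nat.log_mono_right h
  gcongr

lemma Dominated.trans {f g h : ℕ → ℕ} (hh : Monotone h) (h1 : Dominated f g)
    (h2 : Dominated g h) : Dominated f h := by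
  obtain ⟨l, hl, H1⟩ := h1
  obtain ⟨l', hl', H2⟩ := h2
  refine ⟨l * l' + l + l', by omega, fun n => ?_⟩
  have e1 := H1 n
  have e2 := H2 (l * n + l)
  have e3 : l' * (l * n + l) + l' ≤ (l * l' + l + l') * n + (l * l' + l + l') := by
    nlinarith [Nat.zero_le (l * n), Nat.zero_le (l' * n)]
  have e4 := hh e3
  calc f n ≤ l * g (l * n + l) + l := e1
    _ ≤ l * (l' * h (l' * (l * n + l) + l') + l') + l := by gcongr
    _ ≤ l * (l' * h ((l * l' + l + l') * n + (l * l' + l + l')) + l') + l := by gcongr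
    _ = (l * l') * h ((l * l' + l + l') * n + (l * l' + l + l')) + (l * l' + l) := by ring
    _ ≤ (l * l' + l + l') * h ((l * l' + l + l') * n + (l * l' + l + l')) + (l * l' + l + l') := by
        have e5 : (l * l') * h ((l * l' + l + l') * n + (l * l' + l + l')) ≤
            (l * l' + l + l') * h ((l * l' + l + l') * n + (l * l' + l + l')) :=
          Nat.mul_le_mul_right _ (by omega)
        omega

lemma not_dominated_small (k : ℕ) (hk : k ≤ 2) : ¬ Dominated sqlog (fun n => n ^ k) := by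
  rintro ⟨l, hl, H⟩
  set m := 4 * l ^ 3 + l + 1 with hm
  have h1 := H (2 ^ m)
  simp only [sqlog] at h1
  rw [Nat.log_pow (by norm_num)] at h1
  have hpos : 1 ≤ 2 ^ m := Nat.one_le_two_pow
  have h2 : (l * 2 ^ m + l) ^ k ≤ (l * 2 ^ m + l) ^ 2 := Nat.pow_le_pow_right (by omega) hk
  have h3 : l * 2 ^ m + l ≤ 2 * l * 2 ^ m := by nlinarith
  have h4 : (l * 2 ^ m + l) ^ 2 ≤ (2 * l * 2 ^ m) ^ 2 := by gcongr
  have h5 : (2 ^ m) ^ 2 * m ≤ (4 * l ^ 3 + l) * (2 ^ m) ^ 2 := by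
    calc (2 ^ m) ^ 2 * m ≤ l * (l * 2 ^ m + l) ^ k + l := h1
      _ ≤ l * (2 * l * 2 ^ m) ^ 2 + l * (2 ^ m) ^ 2 := by
          have : 1 ≤ (2 ^ m) ^ 2 := Nat.one_le_pow _ _ hpos
          have h6 : l * (l * 2 ^ m + l) ^ k ≤ l * (2 * l * 2 ^ m) ^ 2 :=
            Nat.mul_le_mul_left _ (le_trans h2 h4)
          have h7 : l ≤ l * (2 ^ m) ^ 2 := Nat.le_mul_of_pos_right _ (by omega)
          omega
      _ = (4 * l ^ 3 + l) * (2 ^ m) ^ 2 := by ring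
  have h6 : 0 < (2 ^ m) ^ 2 := by positivity
  have h7 : m ≤ 4 * l ^ 3 + l := by
    rw [mul_comm] at h5
    exact Nat.le_of_mul_le_mul_right h5 h6
  omega

lemma not_dominated_big (k : ℕ) (hk : 3 ≤ k) : ¬ Dominated (fun n => n ^ k) sqlog := by
  rintro ⟨l, hl, H⟩
  obtain ⟨C, hC⟩ : ∃ C, C = 4 * l ^ 3 := ⟨_, rfl⟩
  obtain ⟨j, hj⟩ : ∃ j, j = 2 * C + (C * (1 + l) + l) := ⟨_, rfl⟩
  obtain ⟨m, hm⟩ : ∃ m, m = 2 * j := ⟨_, rfl⟩
  have h1 := H (2 ^ m)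
  simp only [sqlog] at h1
  have hpos : 1 ≤ 2 ^ m := Nat.one_le_two_pow
  have h2 : (2 ^ m) ^ 3 ≤ (2 ^ m) ^ k := Nat.pow_le_pow_right hpos hk
  have h3 : l * 2 ^ m + l ≤ 2 * l * 2 ^ m := by nlinarith
  have h4 : l < 2 ^ l := Nat.lt_two_pow_self
  have h5 : l * 2 ^ m + l ≤ 2 ^ (1 + l + m) := by
    calc l * 2 ^ m + l ≤ 2 * l * 2 ^ m := h3
      _ ≤ 2 * 2 ^ l * 2 ^ m := by gcongr
      _ = 2 ^ (1 + l + m) := by ring
  have h6 : Nat.log 2 (l * 2 ^ m + l) ≤ 1 + l + m := by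
    calc Nat.log 2 (l * 2 ^ m + l) ≤ Nat.log 2 (2 ^ (1 + l + m)) := Nat.log_mono_right h5
      _ = 1 + l + m := Nat.log_pow (by norm_num) _
  have h7 : (2 ^ m) ^ 3 ≤ (C * (1 + l + m) + l) * (2 ^ m) ^ 2 := by
    calc (2 ^ m) ^ 3 ≤ (2 ^ m) ^ k := h2
      _ ≤ l * ((l * 2 ^ m + l) ^ 2 * Nat.log 2 (l * 2 ^ m + l)) + l := h1
      _ ≤ l * ((2 * l * 2 ^ m) ^ 2 * (1 + l + m)) + l * (2 ^ m) ^ 2 := by
          have : 1 ≤ (2 ^ m) ^ 2 := Nat.one_le_pow _ _ hpos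
          have h8 : l ≤ l * (2 ^ m) ^ 2 := Nat.le_mul_of_pos_right _ (by omega)
          have h9 : l * ((l * 2 ^ m + l) ^ 2 * Nat.log 2 (l * 2 ^ m + l)) ≤
              l * ((2 * l * 2 ^ m) ^ 2 * (1 + l + m)) := by gcongr
          omega
      _ = (4 * l ^ 3 * (1 + l + m) + l) * (2 ^ m) ^ 2 := by ring
      _ = (C * (1 + l + m) + l) * (2 ^ m) ^ 2 := by rw [hC]
  have h8 : 0 < (2 ^ m) ^ 2 := by positivity
  have h9 : 2 ^ m ≤ C * (1 + l + m) + l := by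
    have : (2 ^ m) * (2 ^ m) ^ 2 ≤ (C * (1 + l + m) + l) * (2 ^ m) ^ 2 := by
      calc (2 ^ m) * (2 ^ m) ^ 2 = (2 ^ m) ^ 3 := by ring
        _ ≤ _ := h7
    exact Nat.le_of_mul_le_mul_right this h8
  have h10 : j < 2 ^ j := Nat.lt_two_pow_self
  have h11 : (j + 1) * (j + 1) ≤ 2 ^ m := by
    rw [hm, two_mul, pow_add]
    gcongr <;> omega
  have h12 : C * (1 + l + m) + l = 2 * C * j + (C * (1 + l) + l) := by rw [hm]; ring
  have hj1 : 1 ≤ j := by omega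
  have h13 : 2 * C * j + (C * (1 + l) + l) ≤ j * j := by
    calc 2 * C * j + (C * (1 + l) + l) ≤ 2 * C * j + (C * (1 + l) + l) * j := by
          gcongr
          exact Nat.le_mul_of_pos_right _ hj1
      _ = (2 * C + (C * (1 + l) + l)) * j := by ring
      _ = j * j := by rw [← hj]
  nlinarith

lemma sqlog_dominated_cube : Dominated sqlog (fun n => n ^ 3) := by
  refine ⟨1, le_refl _, fun n => ?_⟩
  unfold sqlog
  have h1 : Nat.log 2 n ≤ n := Nat.log_le_self 2 n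
  have h2 : n ^ 2 * Nat.log 2 n ≤ n ^ 2 * n := by gcongr
  have h3 : n ^ 3 ≤ (1 * n + 1) ^ 3 := by gcongr; omega
  calc n ^ 2 * Nat.log 2 n ≤ n ^ 2 * n := h2
    _ = n ^ 3 := by ring
    _ ≤ 1 * (1 * n + 1) ^ 3 + 1 := by omega

end Pool.Agent.Lib.MP_eff972_al
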