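import Pool.Agent.Lib.MP_eff972_al.Grp

/-!
# Automorphisms of `HR`
-/

namespace Pool.Agent.Lib.MP_eff972_al

namespace HR

lemma R_mul_X : R * hz 1 0 0 = hz 0 1 0 * R := by
  ext <;> simp

lemma X_mul_R_mul_Y : hz 1 0 0 * (R * hz 0 1 0) = R := by
  ext <;> simp

lemma X_mul_Y : hz 1 0 0 * hz 0 1 0 = hz 0 1 0 * hz 1 0 0 * hz 0 0 1 ^ 2 := by
  rw [hz_pow]
  ext <;> simp

lemma image_noncentral (φ : HR ≃* HR) {g : HR}
    (hg : g.p = 1 ∧ g.q = 0 ∧ (g.a ≠ 0 ∨ g.b ≠ 0)) :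
    (φ g).p = 1 ∧ (φ g).q = 0 ∧ ((φ g).a ≠ 0 ∨ (φ g).b ≠ 0) := by
  rw [← pow_four_central_iff] at hg ⊢
  intro h
  apply hg
  rw [← map_pow] at h
  have := h.map φ.symm
  simpa using this

/-- Every automorphism of `HR` acts on the Heisenberg subgroup by a signed permutation of the two
horizontal coordinates, a sign on the central coordinate and an additive correction. -/
theorem aut_structure (φ : HR ≃* HR) :
    ∃ v1 v2 s s' q : ℤ, (q = 1 ∨ q = -1) ∧ v1 ^ 2 + v2 ^ 2 = 1 ∧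
      ∀ a b t : ℤ, φ (hz a b t) =
        hz (a * v1 - b * q * v2) (a * v2 + b * q * v1) (a * s + b * s' + q * t) := by
  -- images of generators
  have hX := image_noncentral φ (g := hz 1 0 0) (by simp)
  have hY := image_noncentral φ (g := hz 0 1 0) (by simp)
  have hZc : IsCentral (φ (hz 0 0 1)) := by
    apply IsCentral.map
    rw [isCentral_iff]; simp
  have hZ := (isCentral_iff _).1 hZc
  have hZc' : IsCentral (φ.symm (hz 0 0 1)) := by
    apply IsCentral.map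
    rw [isCentral_iff]; simp
  have hZ' := (isCentral_iff _).1 hZc'
  obtain ⟨v1, hv1⟩ : ∃ v1, v1 = (φ (hz 1 0 0)).a := ⟨_, rfl⟩
  obtain ⟨v2, hv2⟩ : ∃ v2, v2 = (φ (hz 1 0 0)).b := ⟨_, rfl⟩
  obtain ⟨s, hs⟩ : ∃ s, s = (φ (hz 1 0 0)).t := ⟨_, rfl⟩
  obtain ⟨w1, hw1⟩ : ∃ w1, w1 = (φ (hz 0 1 0)).a := ⟨_, rfl⟩
  obtain ⟨w2, hw2⟩ : ∃ w2, w2 = (φ (hz 0 1 0)).b := ⟨_, rfl⟩
  obtain ⟨s', hs'⟩ : ∃ s', s' = (φ (hz 0 1 0)).t := ⟨_, rfl⟩
  obtain ⟨e, he⟩ : ∃ e, e = (φ (hz 0 0 1)).t := ⟨_, rfl⟩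
  obtain ⟨e', he'⟩ : ∃ e', e' = (φ.symm (hz 0 0 1)).t := ⟨_, rfl⟩
  have eX : φ (hz 1 0 0) = hz v1 v2 s := by
    rw [hv1, hv2, hs]; exact eq_hz hX.1 hX.2.1
  have eY : φ (hz 0 1 0) = hz w1 w2 s' := by
    rw [hw1, hw2, hs']; exact eq_hz hY.1 hY.2.1
  have eZ : φ (hz 0 0 1) = hz 0 0 e := by
    rw [he, eq_hz hZ.2.2.1 hZ.2.2.2]
    ext <;> simp [hZ]
  have eZ' : φ.symm (hz 0 0 1) = hz 0 0 e' := by
    rw [he', eq_hz hZ'.2.2.1 hZ'.2.2.2]
    ext <;> simp [hZ']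
  -- the sign of the central coordinate
  have hee : e' * e = 1 := by
    have h1 : φ (hz 0 0 e') = hz 0 0 1 := by
      rw [← eZ']; simp
    have h2 : hz 0 0 e' = (hz 0 0 1) ^ e' := by
      rw [hz_zpow]; ext <;> simp
    rw [h2, map_zpow, eZ, hz_zpow] at h1
    have := congrArg HR.t h1
    simpa using this
  have he1 : e = 1 ∨ e = -1 := by
    have := Int.isUnit_iff.1 (IsUnit.of_mul_eq_one e' (by linarith [mul_comm e e']) : IsUnit e)
    exact this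
  -- relations with the rotation
  have r1 := congrArg φ R_mul_X
  have r2 := congrArg φ X_mul_R_mul_Y
  have r3 := congrArg φ X_mul_Y
  rw [map_mul, map_mul, eX, eY] at r1
  rw [map_mul, map_mul, eX, eY] at r2
  rw [map_mul, map_mul, map_mul, map_pow, eX, eY, eZ, hz_pow] at r3
  have r1a := congrArg HR.a r1
  have r1b := congrArg HR.b r1
  have r2a := congrArg HR.a r2
  have r2b := congrArg HR.b r2
  have r3t := congrArg HR.t r3
  simp at r1a r1b r2a r2b r3t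
  have hv : v1 ≠ 0 ∨ v2 ≠ 0 := by
    have := hX.2.2
    rwa [← hv1, ← hv2] at this
  -- the square of the rotation part is -1
  have hq : (φ R).p = 0 ∧ ((φ R).q = 1 ∨ (φ R).q = -1) := by
    rcases unit_cases (φ R).h with ⟨hp, hq⟩ | ⟨hp, hq⟩ | ⟨hp, hq⟩ | ⟨hp, hq⟩
    · exfalso
      rw [hp, hq] at r1a r1b r2a r2b
      rcases hv with h | h <;> apply h <;> linarith
    · exfalso
      rw [hp, hq] at r1a r1b r2a r2b
      rcases hv with h | h <;> apply h <;> linarith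
    · exact ⟨hp, Or.inl hq⟩
    · exact ⟨hp, Or.inr hq⟩
  obtain ⟨hp0, hq1⟩ := hq
  obtain ⟨q, hqd⟩ : ∃ q, q = (φ R).q := ⟨_, rfl⟩
  rw [← hqd] at hq1 r1a r1b r2a r2b
  rw [hp0] at r1a r1b r2a r2b
  have hw1' : w1 = -(q * v2) := by linarith
  have hw2' : w2 = q * v1 := by linarith
  have hqe : q * (v1 ^ 2 + v2 ^ 2) = e := by
    rw [hw1', hw2'] at r3t
    linarith
  have hvv : v1 ^ 2 + v2 ^ 2 = 1 ∧ e = q := by
    have hnn : 0 ≤ v1 ^ 2 + v2 ^ 2 := by positivity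
    rcases hq1 with h | h <;> rcases he1 with h' | h' <;> rw [h, h'] at hqe <;>
      constructor <;> linarith
  refine ⟨v1, v2, s, s', q, hq1, hvv.1, ?_⟩
  intro a b t
  rw [hz_decomp a b t, map_mul, map_mul, map_zpow, map_zpow, map_zpow, eX, eY, eZ, hz_zpow,
    hz_zpow, hz_zpow, hz_mul, hz_mul, hw1', hw2', hvv.2]
  ext
  · simp; ring
  · simp; ring
  · simp
    linear_combination (a * b * q) * hvv.1
  · simp
  · simp

end HR

end Pool.Agent.Lib.MP_eff972_al
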