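import Mathlib

/-!
# Elementary counting estimates
-/

namespace Pool.Agent.Lib.MP_eff972_al

open Finset

lemma harmonic_upper (N : ℕ) (hN : 1 ≤ N) : (harmonic N : ℝ) ≤ Nat.log 2 N + 2 := by
  refine le_trans (harmonic_le_one_add_log N) ?_
  have h1 : (N : ℝ) ≤ 2 ^ (Nat.log 2 N + 1) := by
    have := Nat.lt_pow_succ_log_self (b := 2) (by norm_num) N
    exact_mod_cast this.le
  have h2 : Real.log N ≤ (Nat.log 2 N + 1) * Real.log 2 := by
    calc Real.log N ≤ Real.log (2 ^ (Nat.log 2 N + 1)) :=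
          Real.log_le_log (by exact_mod_cast hN) h1
      _ = (Nat.log 2 N + 1) * Real.log 2 := by rw [Real.log_pow]; push_cast; ring
  have h3 : Real.log 2 ≤ 1 := by
    have := Real.log_two_lt_d9
    linarith
  have h4 : ((Nat.log 2 N : ℝ) + 1) * Real.log 2 ≤ (Nat.log 2 N + 1) * 1 := by
    gcongr
  linarith

lemma harmonic_lower (N : ℕ) : (Nat.log 2 N : ℝ) ≤ 2 * (harmonic N : ℝ) := by
  have h0 := log_add_one_le_harmonic N
  rcases Nat.eq_zero_or_pos N with h | hN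
  · subst h; simp
  have h1 : (2 : ℝ) ^ (Nat.log 2 N) ≤ N := by
    have := Nat.pow_log_le_self 2 (x := N) (by omega)
    exact_mod_cast this
  have h2 : (Nat.log 2 N) * Real.log 2 ≤ Real.log ↑(N + 1) := by
    calc (Nat.log 2 N) * Real.log 2 = Real.log (2 ^ (Nat.log 2 N)) := by rw [Real.log_pow]
      _ ≤ Real.log ↑(N + 1) := by
        apply Real.log_le_log (by positivity)
        push_cast
        linarith
  have h3 : (1 / 2 : ℝ) ≤ Real.log 2 := by
    have := Real.log_two_gt_d9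
    linarith
  have h4 : (Nat.log 2 N : ℝ) * (1 / 2) ≤ (Nat.log 2 N) * Real.log 2 := by
    gcongr
  linarith

lemma sum_div_le (N : ℕ) (hN : 1 ≤ N) :
    ∑ d ∈ Icc 1 N, N / d ≤ N * (Nat.log 2 N + 2) := by
  have h1 : ((∑ d ∈ Icc 1 N, N / d : ℕ) : ℝ) ≤ N * (harmonic N : ℝ) := by
    rw [harmonic_eq_sum_Icc]
    push_cast
    rw [Finset.mul_sum]
    apply Finset.sum_le_sum
    intro d hd
    have : ((N / d : ℕ) : ℝ) ≤ (N : ℝ) / d := Nat.cast_div_le
    rw [div_eq_mul_inv] at this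
    exact this
  have h2 := harmonic_upper N hN
  have h3 : ((∑ d ∈ Icc 1 N, N / d : ℕ) : ℝ) ≤ N * (Nat.log 2 N + 2) := by
    refine le_trans h1 ?_
    gcongr
  exact_mod_cast h3

/-- number of the horizontal-plus-vertical data with nonzero horizontal part -/
lemma card_bound (N : ℕ) (hN : 1 ≤ N) :
    ∑ d ∈ Icc 1 N, ((2 * (N / d) + 1) ^ 2 * (2 * d)) ≤ 18 * N ^ 2 * (Nat.log 2 N + 2) := by
  calc ∑ d ∈ Icc 1 N, ((2 * (N / d) + 1) ^ 2 * (2 * d))
      ≤ ∑ d ∈ Icc 1 N, 18 * N * (N / d) := by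
        apply Finset.sum_le_sum
        intro d hd
        rw [Finset.mem_Icc] at hd
        have h1 : 1 ≤ N / d := by
          rw [Nat.one_le_div_iff (by omega)]; exact hd.2
        have h2 : N / d * d ≤ N := Nat.div_mul_le_self N d
        calc (2 * (N / d) + 1) ^ 2 * (2 * d) ≤ (3 * (N / d)) ^ 2 * (2 * d) := by
              gcongr; omega
          _ = 18 * (N / d) * (N / d * d) := by ring
          _ ≤ 18 * (N / d) * N := by gcongr
          _ = 18 * N * (N / d) := by ring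
    _ = 18 * N * ∑ d ∈ Icc 1 N, (N / d) := by rw [Finset.mul_sum]
    _ ≤ 18 * N * (N * (Nat.log 2 N + 2)) := by
        gcongr
        exact sum_div_le N hN
    _ = 18 * N ^ 2 * (Nat.log 2 N + 2) := by ring

/-- coprime pairs in the square `[1, M] × [1, M]` -/
def copSq (M : ℕ) : Finset (ℕ × ℕ) :=
  ((Icc 1 M) ×ˢ (Icc 1 M)).filter fun x => Nat.gcd x.1 x.2 = 1

/-- coprime pairs `1 ≤ a ≤ b ≤ M` -/
def cop (M : ℕ) : Finset (ℕ × ℕ) :=
  ((Icc 1 M) ×ˢ (Icc 1 M)).filter fun x => Nat.gcd x.1 x.2 = 1 ∧ x.1 ≤ x.2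

lemma sum_inv_sq (M : ℕ) : ∑ g ∈ Icc 2 (M + 2), (1 : ℝ) / (g : ℝ) ^ 2 ≤ 3 / 4 - 1 / (M + 2) := by
  induction M with
  | zero => norm_num
  | succ M ih =>
    rw [show M + 1 + 2 = (M + 2) + 1 by ring, Finset.sum_Icc_succ_top (by omega)]
    have h1 : (1 : ℝ) / (((M + 2 + 1 : ℕ) : ℝ)) ^ 2 ≤ 1 / (M + 2) - 1 / (M + 3) := by
      have : (1 : ℝ) / (M + 2) - 1 / (M + 3) = 1 / ((M + 2) * (M + 3)) := by
        field_simp
        ring
      rw [this]
      push_cast
      apply one_div_le_one_div_of_le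
      · positivity
      · nlinarith [(Nat.cast_nonneg M : (0 : ℝ) ≤ M)]
    have h2 : ((M + 1 : ℕ) : ℝ) + 2 = M + 3 := by push_cast; ring
    rw [h2]
    linarith

lemma copSq_lower (M : ℕ) : (M : ℝ) ^ 2 ≤ 4 * ((copSq M).card : ℝ) := by
  -- the square is covered by the coprime pairs and the scaled squares
  have hsub : (Icc 1 M) ×ˢ (Icc 1 M) ⊆ copSq M ∪
      (Icc 2 M).biUnion (fun g => ((Icc 1 (M / g)) ×ˢ (Icc 1 (M / g))).image
        (fun x => (g * x.1, g * x.2))) := by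
    intro x hx
    rw [Finset.mem_product, Finset.mem_Icc, Finset.mem_Icc] at hx
    rw [Finset.mem_union]
    by_cases hg : Nat.gcd x.1 x.2 = 1
    · left
      simp only [copSq, Finset.mem_filter, Finset.mem_product, Finset.mem_Icc]
      exact ⟨hx, hg⟩
    · right
      have hpos : 0 < Nat.gcd x.1 x.2 := Nat.gcd_pos_of_pos_left _ (by omega)
      have h1 : Nat.gcd x.1 x.2 ∣ x.1 := Nat.gcd_dvd_left _ _
      have h2 : Nat.gcd x.1 x.2 ∣ x.2 := Nat.gcd_dvd_right _ _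
      have h1' := Nat.le_of_dvd (by omega) h1
      rw [Finset.mem_biUnion]
      refine ⟨Nat.gcd x.1 x.2, ?_, ?_⟩
      · rw [Finset.mem_Icc]; omega
      · rw [Finset.mem_image]
        refine ⟨(x.1 / Nat.gcd x.1 x.2, x.2 / Nat.gcd x.1 x.2), ?_, ?_⟩
        · rw [Finset.mem_product, Finset.mem_Icc, Finset.mem_Icc]
          refine ⟨⟨?_, ?_⟩, ⟨?_, ?_⟩⟩
          · exact Nat.div_pos h1' hpos
          · exact Nat.div_le_div_right hx.1.2
          · exact Nat.div_pos (Nat.le_of_dvd (by omega) h2) hpos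
          · exact Nat.div_le_div_right hx.2.2
        · ext
          · exact Nat.mul_div_cancel' h1
          · exact Nat.mul_div_cancel' h2
  have hcard := Finset.card_le_card hsub
  rw [Finset.card_product, Nat.card_Icc] at hcard
  have h2 : ((Icc 2 M).biUnion (fun g => ((Icc 1 (M / g)) ×ˢ (Icc 1 (M / g))).image
        (fun x : ℕ × ℕ => (g * x.1, g * x.2)))).card ≤ ∑ g ∈ Icc 2 M, (M / g) ^ 2 := by
    refine le_trans Finset.card_biUnion_le ?_
    apply Finset.sum_le_sum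
    intro g _
    refine le_trans Finset.card_image_le ?_
    rw [Finset.card_product, Nat.card_Icc]
    apply le_of_eq
    simp [sq]
  have h3 : M ^ 2 ≤ (copSq M).card + ∑ g ∈ Icc 2 M, (M / g) ^ 2 := by
    calc M ^ 2 = (M + 1 - 1) * (M + 1 - 1) := by simp [sq]
      _ ≤ _ := hcard
      _ ≤ _ := Finset.card_union_le _ _
      _ ≤ _ := by gcongr
  have h4 : (M : ℝ) ^ 2 ≤ (copSq M).card + ∑ g ∈ Icc 2 M, ((M / g : ℕ) : ℝ) ^ 2 := by
    exact_mod_cast h3
  have h5 : ∑ g ∈ Icc 2 M, ((M / g : ℕ) : ℝ) ^ 2 ≤ (M : ℝ) ^ 2 * (3 / 4) := by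
    calc ∑ g ∈ Icc 2 M, ((M / g : ℕ) : ℝ) ^ 2
        ≤ ∑ g ∈ Icc 2 M, (M : ℝ) ^ 2 * (1 / (g : ℝ) ^ 2) := by
          apply Finset.sum_le_sum
          intro g _
          have : ((M / g : ℕ) : ℝ) ≤ (M : ℝ) / g := Nat.cast_div_le
          calc ((M / g : ℕ) : ℝ) ^ 2 ≤ ((M : ℝ) / g) ^ 2 := by gcongr
            _ = _ := by rw [div_pow]; ring
      _ = (M : ℝ) ^ 2 * ∑ g ∈ Icc 2 M, (1 / (g : ℝ) ^ 2) := by rw [Finset.mul_sum]
      _ ≤ (M : ℝ) ^ 2 * (3 / 4) := by
          gcongr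
          have hle : ∑ g ∈ Icc 2 M, (1 / (g : ℝ) ^ 2) ≤ ∑ g ∈ Icc 2 (M + 2), (1 : ℝ) / (g : ℝ) ^ 2 := by
            apply Finset.sum_le_sum_of_subset_of_nonneg
            · apply Finset.Icc_subset_Icc_right; omega
            · intros; positivity
          refine le_trans hle (le_trans (sum_inv_sq M) ?_)
          have : (0 : ℝ) ≤ 1 / (M + 2) := by positivity
          linarith
  linarith

lemma cop_lower (M : ℕ) : (M : ℝ) ^ 2 ≤ 8 * ((cop M).card : ℝ) := by
  have hsub : copSq M ⊆ cop M ∪ (cop M).image Prod.swap := by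
    intro x hx
    simp only [copSq, Finset.mem_filter, Finset.mem_product, Finset.mem_Icc] at hx
    rw [Finset.mem_union]
    rcases le_total x.1 x.2 with h | h
    · left
      simp only [cop, Finset.mem_filter, Finset.mem_product, Finset.mem_Icc]
      exact ⟨hx.1, hx.2, h⟩
    · right
      rw [Finset.mem_image]
      refine ⟨x.swap, ?_, by simp⟩
      simp only [cop, Finset.mem_filter, Finset.mem_product, Finset.mem_Icc, Prod.fst_swap,
        Prod.snd_swap]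
      exact ⟨⟨hx.1.2, hx.1.1⟩, by rw [Nat.gcd_comm]; exact hx.2, h⟩
  have h1 : (copSq M).card ≤ (cop M).card + (cop M).card := by
    have e1 := Finset.card_le_card hsub
    have e2 := Finset.card_union_le (cop M) ((cop M).image Prod.swap)
    have e3 : ((cop M).image Prod.swap).card ≤ (cop M).card := Finset.card_image_le
    omega
  have h2 := copSq_lower M
  have h3 : ((copSq M).card : ℝ) ≤ (cop M).card + (cop M).card := by exact_mod_cast h1
  linarith

/-- index set of pairwise inequivalent elements: `(d, (a, b), s)` with `1 ≤ d ≤ N`,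
`(a, b)` a coprime pair with `1 ≤ a ≤ b ≤ N / d`, and `0 ≤ s ≤ d / 2`. -/
def idx (N : ℕ) : Finset (Σ _ : ℕ, (ℕ × ℕ) × ℕ) :=
  (Icc 1 N).sigma fun d => (cop (N / d)) ×ˢ (range (d / 2 + 1))

lemma idx_card (N : ℕ) : (idx N).card = ∑ d ∈ Icc 1 N, (cop (N / d)).card * (d / 2 + 1) := by
  rw [idx, Finset.card_sigma]
  apply Finset.sum_congr rfl
  intro d _
  rw [Finset.card_product, Finset.card_range]

lemma idx_lower (N : ℕ) : N ^ 2 * Nat.log 2 N ≤ 128 * (idx N).card := by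
  have h1 : ((N : ℝ) ^ 2 * (harmonic N : ℝ)) ≤ 64 * ((idx N).card : ℝ) := by
    rw [idx_card, harmonic_eq_sum_Icc]
    push_cast
    rw [Finset.mul_sum, Finset.mul_sum]
    apply Finset.sum_le_sum
    intro d hd
    rw [Finset.mem_Icc] at hd
    have hd0 : (0 : ℝ) < d := by exact_mod_cast (by omega : 0 < d)
    have h2 : (d : ℝ) ≤ 2 * ((d / 2 : ℕ) + 1) := by
      have : d ≤ 2 * (d / 2 + 1) := by omega
      exact_mod_cast this
    have h3 := cop_lower (N / d)
    have h4 : (N : ℝ) ≤ 2 * d * ((N / d : ℕ) : ℝ) := by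
      have h5 : 1 ≤ N / d := by
        rw [Nat.one_le_div_iff (by omega)]; exact hd.2
      have h6 : N < d * (N / d + 1) := by
        have := Nat.lt_mul_div_succ N (by omega : 0 < d)
        simpa using this
      have h7 : N ≤ 2 * d * (N / d) := by nlinarith
      exact_mod_cast h7
    set m : ℝ := ((N / d : ℕ) : ℝ) with hm
    have hm0 : 0 ≤ m := by positivity
    have h8 : (N : ℝ) ^ 2 ≤ 4 * d ^ 2 * m ^ 2 := by
      calc (N : ℝ) ^ 2 ≤ (2 * d * m) ^ 2 := by gcongr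
        _ = _ := by ring
    have h9 : (N : ℝ) ^ 2 * (d : ℝ)⁻¹ ≤ 4 * d * m ^ 2 := by
      rw [← div_eq_mul_inv, div_le_iff₀ hd0]
      calc (N : ℝ) ^ 2 ≤ 4 * d ^ 2 * m ^ 2 := h8
        _ = _ := by ring
    calc (N : ℝ) ^ 2 * (d : ℝ)⁻¹ ≤ 4 * d * m ^ 2 := h9
      _ ≤ 4 * (2 * ((d / 2 : ℕ) + 1)) * (8 * ((cop (N / d)).card : ℝ)) := by gcongr
      _ = 64 * (((cop (N / d)).card : ℝ) * (((d / 2 : ℕ) : ℝ) + 1)) := by ring
  have h2 := harmonic_lower N
  have h3 : ((N : ℝ) ^ 2 * (Nat.log 2 N)) ≤ 128 * ((idx N).card : ℝ) := by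
    have : (N : ℝ) ^ 2 * (Nat.log 2 N) ≤ (N : ℝ) ^ 2 * (2 * (harmonic N : ℝ)) := by gcongr
    linarith
  exact_mod_cast h3

end Pool.Agent.Lib.MP_eff972_al
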