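import Mathlib

/-!
# Automorphic growth of finitely generated groups: definitions
-/

namespace Pool.Agent.Lib.MP_eff972_al

/-- Word length of `g` over `S ∪ S⁻¹`: the least length of a list of elements of `S ∪ S⁻¹`
whose product is `g`. -/
noncomputable def wordLength {G : Type*} [Group G] (S : Set G) (g : G) : ℕ :=
  sInf {n : ℕ | ∃ l : List G, l.length = n ∧ (∀ x ∈ l, x ∈ S ∨ x⁻¹ ∈ S) ∧ l.prod = g}

/-- The automorphic growth function of `G` with respect to `S`: the number of orbits of `Aut G`
on `G` whose length (the minimum of the word lengths of its elements) is at most `n`. -/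
noncomputable def autGrowth {G : Type*} [Group G] (S : Set G) (n : ℕ) : ℕ :=
  Set.ncard {O : Set G | (∃ g : G, O = MulAction.orbit (MulAut G) g) ∧
    sInf (wordLength S '' O) ≤ n}

/-- `Dominated f g` is the relation `f ≼ g`: there is an integer `l ≥ 1` with
`f n ≤ l * g (l * n + l) + l` for all `n`. -/
def Dominated (f g : ℕ → ℕ) : Prop :=
  ∃ l : ℕ, 1 ≤ l ∧ ∀ n : ℕ, f n ≤ l * g (l * n + l) + l

/-- `GrowthEquiv f g` is the relation `f ∼ g`: both `f ≼ g` and `g ≼ f`. -/
def GrowthEquiv (f g : ℕ → ℕ) : Prop :=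
  Dominated f g ∧ Dominated g f

end Pool.Agent.Lib.MP_eff972_al
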