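import Pool.Agent.Lib.MP_eff972_al.Lower
import Pool.Agent.Lib.MP_eff972_al.Asym

/-!
# The automorphic growth of `HR` is `n ^ 2 log n`
-/

namespace Pool.Agent.Lib.MP_eff972_al

namespace HR

lemma closure_eq_top :
    Subgroup.closure ({hz 1 0 0, hz 0 1 0, hz 0 0 1, R} : Set HR) = ⊤ := by
  rw [eq_top_iff]
  intro g _
  set K := Subgroup.closure ({hz 1 0 0, hz 0 1 0, hz 0 0 1, R} : Set HR) with hK
  have hX : hz 1 0 0 ∈ K := Subgroup.subset_closure (by simp)
  have hY : hz 0 1 0 ∈ K := Subgroup.subset_closure (by simp)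
  have hZ : hz 0 0 1 ∈ K := Subgroup.subset_closure (by simp)
  have hR : R ∈ K := Subgroup.subset_closure (by simp)
  have hh : ∀ a b t : ℤ, hz a b t ∈ K := by
    intro a b t
    rw [hz_decomp]
    exact K.mul_mem (K.mul_mem (K.zpow_mem hX _) (K.zpow_mem hY _)) (K.zpow_mem hZ _)
  rcases unit_cases g.h with ⟨hp, hq⟩ | ⟨hp, hq⟩ | ⟨hp, hq⟩ | ⟨hp, hq⟩
  · rw [eq_hz hp hq]; exact hh _ _ _
  · have : g = hz g.a g.b g.t * (R * R) := by ext <;> simp [hp, hq]
    rw [this]
    exact K.mul_mem (hh _ _ _) (K.mul_mem hR hR)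
  · have : g = hz g.a g.b g.t * R := by ext <;> simp [hp, hq]
    rw [this]
    exact K.mul_mem (hh _ _ _) hR
  · have : g = hz g.a g.b g.t * (R * R * R) := by ext <;> simp [hp, hq]
    rw [this]
    exact K.mul_mem (hh _ _ _) (K.mul_mem (K.mul_mem hR hR) hR)

lemma fg : Group.FG HR := by
  rw [Group.fg_iff]
  exact ⟨_, closure_eq_top, by simp⟩

theorem growth_equiv (S : Set HR) (hfin : S.Finite) (hS : Subgroup.closure S = ⊤) :
    GrowthEquiv (autGrowth S) sqlog := by
  obtain ⟨M, hM, hup⟩ := upper S hfin hS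
  obtain ⟨L, hL, hlow⟩ := lower S hfin hS
  constructor
  · refine ⟨M + 1300, by omega, fun n => ?_⟩
    have h1 := (hup n).2
    have h2 : sqlog (M * n + M) ≤ sqlog ((M + 1300) * n + (M + 1300)) :=
      sqlog_mono (by nlinarith)
    calc autGrowth S n ≤ 1300 * sqlog (M * n + M) := h1
      _ ≤ (M + 1300) * sqlog ((M + 1300) * n + (M + 1300)) := by gcongr; omega
      _ ≤ _ := by omega
  · refine ⟨L + 128, by omega, fun n => ?_⟩
    have h1 := idx_lower n
    have h2 := hlow n
    have h3 : autGrowth S (L * n) ≤ autGrowth S ((L + 128) * n + (L + 128)) :=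
      autGrowth_mono S (by nlinarith) (hup _).1
    calc sqlog n ≤ 128 * (idx n).card := h1
      _ ≤ 128 * autGrowth S (L * n) := by gcongr
      _ ≤ (L + 128) * autGrowth S ((L + 128) * n + (L + 128)) := by gcongr; omega
      _ ≤ _ := by omega

theorem not_polynomial (S : Set HR) (hfin : S.Finite) (hS : Subgroup.closure S = ⊤) :
    ¬ ∃ k : ℕ, GrowthEquiv (autGrowth S) (fun n => n ^ k) := by
  rintro ⟨k, h1, h2⟩
  obtain ⟨g1, g2⟩ := growth_equiv S hfin hS
  rcases Nat.lt_or_ge k 3 with hk | hk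
  · apply not_dominated_small k (by omega)
    exact g2.trans (fun m n h => Nat.pow_le_pow_left h k) h1
  · apply not_dominated_big k hk
    exact h2.trans sqlog_mono g1

theorem poly_bounded (S : Set HR) (hfin : S.Finite) (hS : Subgroup.closure S = ⊤) :
    ∃ d : ℕ, Dominated (autGrowth S) (fun n => n ^ d) :=
  ⟨3, (growth_equiv S hfin hS).1.trans (fun m n h => Nat.pow_le_pow_left h 3)
    sqlog_dominated_cube⟩

end HR

end Pool.Agent.Lib.MP_eff972_al
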