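import Mathlib

/-!
# The group `HR`: an integral Heisenberg group extended by the rotation of order four

Elements are triples `(w, t, u)` with `w = a + b i` a Gaussian integer, `t` an integer and
`u = p + q i` a Gaussian unit; the product is
`(w, t, u) (w', t', u') = (w + u w', t + t' + Im (conj w * (u w')), u u')`.
-/

namespace Pool.Agent.Lib.MP_eff972_al

/-- Heisenberg-by-rotation group. -/
@[ext]
structure HR where
  a : ℤ
  b : ℤ
  t : ℤ
  p : ℤ
  q : ℤ
  h : p ^ 2 + q ^ 2 = 1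
  deriving DecidableEq

namespace HR

/-- multiplication -/
def mul (x y : HR) : HR where
  a := x.a + (x.p * y.a - x.q * y.b)
  b := x.b + (x.p * y.b + x.q * y.a)
  t := x.t + y.t + (x.a * (x.p * y.b + x.q * y.a) - x.b * (x.p * y.a - x.q * y.b))
  p := x.p * y.p - x.q * y.q
  q := x.p * y.q + x.q * y.p
  h := by
    have h1 := x.h
    have h2 := y.h
    linear_combination (y.p ^ 2 + y.q ^ 2) * h1 + h2

/-- identity -/
def one : HR where
  a := 0
  b := 0
  t := 0
  p := 1
  q := 0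
  h := by norm_num

/-- inverse -/
def inv (x : HR) : HR where
  a := -(x.p * x.a + x.q * x.b)
  b := -(x.p * x.b - x.q * x.a)
  t := -x.t
  p := x.p
  q := -x.q
  h := by
    have h1 := x.h
    linear_combination h1

instance : Mul HR := ⟨mul⟩
instance : One HR := ⟨one⟩
instance : Inv HR := ⟨inv⟩

@[simp] lemma mul_a (x y : HR) : (x * y).a = x.a + (x.p * y.a - x.q * y.b) := rfl
@[simp] lemma mul_b (x y : HR) : (x * y).b = x.b + (x.p * y.b + x.q * y.a) := rfl
@[simp] lemma mul_t (x y : HR) : (x * y).t =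
  x.t + y.t + (x.a * (x.p * y.b + x.q * y.a) - x.b * (x.p * y.a - x.q * y.b)) := rfl
@[simp] lemma mul_p (x y : HR) : (x * y).p = x.p * y.p - x.q * y.q := rfl
@[simp] lemma mul_q (x y : HR) : (x * y).q = x.p * y.q + x.q * y.p := rfl
@[simp] lemma one_a : (1 : HR).a = 0 := rfl
@[simp] lemma one_b : (1 : HR).b = 0 := rfl
@[simp] lemma one_t : (1 : HR).t = 0 := rfl
@[simp] lemma one_p : (1 : HR).p = 1 := rfl
@[simp] lemma one_q : (1 : HR).q = 0 := rfl
@[simp] lemma inv_a (x : HR) : (x⁻¹).a = -(x.p * x.a + x.q * x.b) := rfl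
@[simp] lemma inv_b (x : HR) : (x⁻¹).b = -(x.p * x.b - x.q * x.a) := rfl
@[simp] lemma inv_t (x : HR) : (x⁻¹).t = -x.t := rfl
@[simp] lemma inv_p (x : HR) : (x⁻¹).p = x.p := rfl
@[simp] lemma inv_q (x : HR) : (x⁻¹).q = -x.q := rfl

instance : Group HR :=
  Group.ofLeftAxioms
    (by
      intro x y z
      have h1 := x.h
      ext
      · simp; ring
      · simp; ring
      · simp
        linear_combination (y.a * (y.p * z.b + y.q * z.a) - y.b * (y.p * z.a - y.q * z.b)) * h1
      · simp; ring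
      · simp; ring)
    (by
      intro x
      ext <;> simp)
    (by
      intro x
      have h1 := x.h
      ext
      · simp
      · simp; ring
      · simp; ring
      · simp; linear_combination h1
      · simp; ring)

/-- elements of the Heisenberg subgroup -/
def hz (a b t : ℤ) : HR := ⟨a, b, t, 1, 0, by norm_num⟩

/-- the rotation -/
def R : HR := ⟨0, 0, 0, 0, 1, by norm_num⟩

@[simp] lemma hz_a (a b t : ℤ) : (hz a b t).a = a := rfl
@[simp] lemma hz_b (a b t : ℤ) : (hz a b t).b = b := rfl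
@[simp] lemma hz_t (a b t : ℤ) : (hz a b t).t = t := rfl
@[simp] lemma hz_p (a b t : ℤ) : (hz a b t).p = 1 := rfl
@[simp] lemma hz_q (a b t : ℤ) : (hz a b t).q = 0 := rfl
@[simp] lemma R_a : R.a = 0 := rfl
@[simp] lemma R_b : R.b = 0 := rfl
@[simp] lemma R_t : R.t = 0 := rfl
@[simp] lemma R_p : R.p = 0 := rfl
@[simp] lemma R_q : R.q = 1 := rfl

lemma hz_mul (a b t a' b' t' : ℤ) :
    hz a b t * hz a' b' t' = hz (a + a') (b + b') (t + t' + (a * b' - b * a')) := by
  ext <;> simp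

lemma hz_inv (a b t : ℤ) : (hz a b t)⁻¹ = hz (-a) (-b) (-t) := by
  ext <;> simp

lemma one_eq : (1 : HR) = hz 0 0 0 := rfl

lemma hz_pow (a b t : ℤ) (n : ℕ) : (hz a b t) ^ n = hz (n * a) (n * b) (n * t) := by
  induction n with
  | zero => simp [one_eq]
  | succ n ih =>
    rw [pow_succ, ih, hz_mul]
    ext <;> simp <;> ring

lemma hz_zpow (a b t : ℤ) (n : ℤ) : (hz a b t) ^ n = hz (n * a) (n * b) (n * t) := by
  obtain ⟨m, rfl | rfl⟩ := n.eq_nat_or_neg
  · rw [zpow_natCast, hz_pow]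
  · rw [zpow_neg, zpow_natCast, hz_pow, hz_inv]
    ext <;> simp

lemma hz_decomp (a b t : ℤ) :
    hz a b t = (hz 1 0 0) ^ a * (hz 0 1 0) ^ b * (hz 0 0 1) ^ (t - a * b) := by
  rw [hz_zpow, hz_zpow, hz_zpow, hz_mul, hz_mul]
  ext <;> simp

lemma eq_hz {g : HR} (hp : g.p = 1) (hq : g.q = 0) : g = hz g.a g.b g.t := by
  ext <;> simp [hp, hq]

lemma unit_cases {p q : ℤ} (h : p ^ 2 + q ^ 2 = 1) :
    (p = 1 ∧ q = 0) ∨ (p = -1 ∧ q = 0) ∨ (p = 0 ∧ q = 1) ∨ (p = 0 ∧ q = -1) := by
  have hp1 : p ≤ 1 := by nlinarith [sq_nonneg q, sq_nonneg (p - 1)]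
  have hp2 : -1 ≤ p := by nlinarith [sq_nonneg q, sq_nonneg (p + 1)]
  have hq1 : q ≤ 1 := by nlinarith [sq_nonneg p, sq_nonneg (q - 1)]
  have hq2 : -1 ≤ q := by nlinarith [sq_nonneg p, sq_nonneg (q + 1)]
  interval_cases p <;> interval_cases q <;> simp_all

/-- being central -/
def IsCentral (g : HR) : Prop := ∀ x : HR, g * x = x * g

lemma isCentral_iff (g : HR) : IsCentral g ↔ g.a = 0 ∧ g.b = 0 ∧ g.p = 1 ∧ g.q = 0 := by
  constructor
  · intro h
    have h1 := h (hz 1 0 0)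
    have h2 := h R
    have e1 := congrArg HR.a h1
    have e2 := congrArg HR.b h1
    have e3 := congrArg HR.a h2
    have e4 := congrArg HR.b h2
    simp at e1 e2 e3 e4
    refine ⟨by omega, by omega, by omega, by omega⟩
  · rintro ⟨ha, hb, hp, hq⟩ x
    ext <;> simp [ha, hb, hp, hq]
    ring

lemma IsCentral.map {g : HR} (hg : IsCentral g) (φ : HR ≃* HR) : IsCentral (φ g) := by
  intro x
  have := hg (φ.symm x)
  have h2 := congrArg φ this
  simpa using h2

/-- `g ^ 4` is not central exactly when `g` is a noncentral element of the Heisenberg subgroup. -/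
lemma pow_four_central_iff (g : HR) :
    ¬ IsCentral (g ^ 4) ↔ g.p = 1 ∧ g.q = 0 ∧ (g.a ≠ 0 ∨ g.b ≠ 0) := by
  have h4 : g ^ 4 = g * g * (g * g) := by
    rw [pow_succ, pow_succ, pow_succ, pow_one]; group
  rw [isCentral_iff, h4]
  rcases unit_cases g.h with ⟨hp, hq⟩ | ⟨hp, hq⟩ | ⟨hp, hq⟩ | ⟨hp, hq⟩
  · simp [hp, hq]
    constructor
    · intro h
      by_contra hcon
      have := h (by omega)
      omega
    · intro h h1 h2
      omega
  · simp [hp, hq]
  · simp [hp, hq]
  · simp [hp, hq]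

end HR

end Pool.Agent.Lib.MP_eff972_al
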