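import Pool.Agent.Lib.MP_eff972_al.Defs

/-!
# Basic facts on word length and automorphic growth
-/

namespace Pool.Agent.Lib.MP_eff972_al

variable {G : Type*} [Group G] {S : Set G}

lemma exists_list (hS : Subgroup.closure S = ⊤) (g : G) :
    ∃ l : List G, (∀ x ∈ l, x ∈ S ∨ x⁻¹ ∈ S) ∧ l.prod = g := by
  have hg : g ∈ (Subgroup.closure S).toSubmonoid := by rw [hS]; trivial
  rw [Subgroup.closure_toSubmonoid] at hg
  obtain ⟨l, hl, hp⟩ := Submonoid.exists_list_of_mem_closure hg
  refine ⟨l, fun x hx => ?_, hp⟩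
  rcases hl x hx with h | h
  · exact Or.inl h
  · exact Or.inr h

lemma wordLength_le {g : G} (l : List G) (hl : ∀ x ∈ l, x ∈ S ∨ x⁻¹ ∈ S) (hp : l.prod = g) :
    wordLength S g ≤ l.length :=
  Nat.sInf_le ⟨l, rfl, hl, hp⟩

lemma exists_list_length (hS : Subgroup.closure S = ⊤) (g : G) :
    ∃ l : List G, l.length = wordLength S g ∧ (∀ x ∈ l, x ∈ S ∨ x⁻¹ ∈ S) ∧ l.prod = g := by
  have hne : {n : ℕ | ∃ l : List G, l.length = n ∧ (∀ x ∈ l, x ∈ S ∨ x⁻¹ ∈ S) ∧
      l.prod = g}.Nonempty := by
    obtain ⟨l, hl, hp⟩ := exists_list hS g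
    exact ⟨l.length, l, rfl, hl, hp⟩
  exact Nat.sInf_mem hne

lemma wordLength_one : wordLength S (1 : G) = 0 := by
  have := wordLength_le (S := S) (g := (1 : G)) [] (by simp) (by simp)
  simpa using this

lemma wordLength_mul_le (hS : Subgroup.closure S = ⊤) (g h : G) :
    wordLength S (g * h) ≤ wordLength S g + wordLength S h := by
  obtain ⟨l, hl, hl', hp⟩ := exists_list_length hS g
  obtain ⟨m, hm, hm', hq⟩ := exists_list_length hS h
  rw [← hl, ← hm, ← List.length_append]
  apply wordLength_le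
  · intro x hx
    rcases List.mem_append.1 hx with h | h
    · exact hl' x h
    · exact hm' x h
  · rw [List.prod_append, hp, hq]

lemma wordLength_pow_le (hS : Subgroup.closure S = ⊤) (g : G) (n : ℕ) :
    wordLength S (g ^ n) ≤ n * wordLength S g := by
  induction n with
  | zero => simp [wordLength_one]
  | succ n ih =>
    rw [pow_succ]
    calc wordLength S (g ^ n * g) ≤ wordLength S (g ^ n) + wordLength S g :=
          wordLength_mul_le hS _ _
      _ ≤ n * wordLength S g + wordLength S g := by omega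
      _ = (n + 1) * wordLength S g := by ring

/-- The orbits of length at most `n` are the orbits of the elements of length at most `n`. -/
lemma orbits_eq (S : Set G) (n : ℕ) :
    {O : Set G | (∃ g : G, O = MulAction.orbit (MulAut G) g) ∧ sInf (wordLength S '' O) ≤ n} =
      (fun g : G => MulAction.orbit (MulAut G) g) '' {g : G | wordLength S g ≤ n} := by
  ext O
  constructor
  · rintro ⟨⟨g, rfl⟩, hO⟩
    have hne : (wordLength S '' (MulAction.orbit (MulAut G) g)).Nonempty :=
      ⟨_, g, MulAction.mem_orbit_self g, rfl⟩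
    obtain ⟨h, hh, he⟩ := Nat.sInf_mem hne
    refine ⟨h, ?_, ?_⟩
    · rw [Set.mem_ofPred_eq, he]; exact hO
    · exact MulAction.orbit_eq_iff.2 hh
  · rintro ⟨g, hg, rfl⟩
    refine ⟨⟨g, rfl⟩, ?_⟩
    refine le_trans (Nat.sInf_le ⟨g, MulAction.mem_orbit_self g, rfl⟩) hg

lemma autGrowth_eq (S : Set G) (n : ℕ) :
    autGrowth S n =
      Set.ncard ((fun g : G => MulAction.orbit (MulAut G) g) '' {g : G | wordLength S g ≤ n}) := by
  rw [autGrowth, orbits_eq]

/-- If every element of the ball of radius `n` lies in the orbit of some element of the finite set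
`F`, then `autGrowth S n ≤ F.card`, and the set of orbits is finite. -/
lemma autGrowth_le_card (S : Set G) (n : ℕ) (F : Finset G)
    (hF : ∀ g : G, wordLength S g ≤ n → ∃ h ∈ F, g ∈ MulAction.orbit (MulAut G) h) :
    ((fun g : G => MulAction.orbit (MulAut G) g) '' {g : G | wordLength S g ≤ n}).Finite ∧
      autGrowth S n ≤ F.card := by
  have hsub : ((fun g : G => MulAction.orbit (MulAut G) g) '' {g : G | wordLength S g ≤ n}) ⊆
      ((fun g : G => MulAction.orbit (MulAut G) g) '' (F : Set G)) := by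
    rintro _ ⟨g, hg, rfl⟩
    obtain ⟨h, hh, hgh⟩ := hF g hg
    exact ⟨h, hh, (MulAction.orbit_eq_iff.2 hgh).symm⟩
  have hfin : ((fun g : G => MulAction.orbit (MulAut G) g) '' (F : Set G)).Finite :=
    (F.finite_toSet).image _
  refine ⟨hfin.subset hsub, ?_⟩
  rw [autGrowth_eq]
  calc _ ≤ Set.ncard ((fun g : G => MulAction.orbit (MulAut G) g) '' (F : Set G)) :=
        Set.ncard_le_ncard hsub hfin
    _ ≤ Set.ncard (F : Set G) := Set.ncard_image_le F.finite_toSet
    _ = F.card := Set.ncard_coe_finset F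

/-- Lower bound by pairwise inequivalent elements. -/
lemma card_le_autGrowth {ι : Type*} (S : Set G) (n : ℕ) (F : Finset ι) (f : ι → G)
    (hfin : ((fun g : G => MulAction.orbit (MulAut G) g) '' {g : G | wordLength S g ≤ n}).Finite)
    (hlen : ∀ i ∈ F, wordLength S (f i) ≤ n)
    (hinj : ∀ i ∈ F, ∀ j ∈ F, f i ∈ MulAction.orbit (MulAut G) (f j) → i = j) :
    F.card ≤ autGrowth S n := by
  rw [autGrowth_eq]
  have h1 : Set.InjOn (fun i => MulAction.orbit (MulAut G) (f i)) (F : Set ι) := by
    intro i hi j hj hij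
    exact hinj i hi j hj (MulAction.orbit_eq_iff.1 hij)
  rw [← Set.ncard_coe_finset F, ← h1.ncard_image]
  apply Set.ncard_le_ncard _ hfin
  rintro _ ⟨i, hi, rfl⟩
  exact ⟨f i, hlen i hi, rfl⟩

lemma autGrowth_mono (S : Set G) {m n : ℕ} (hmn : m ≤ n)
    (hfin : ((fun g : G => MulAction.orbit (MulAut G) g) '' {g : G | wordLength S g ≤ n}).Finite) :
    autGrowth S m ≤ autGrowth S n := by
  rw [autGrowth_eq, autGrowth_eq]
  apply Set.ncard_le_ncard _ hfin
  apply Set.image_mono
  intro g hg
  exact le_trans hg hmn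

end Pool.Agent.Lib.MP_eff972_al
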