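import Pool.Agent.Lib.MP_eff972_al.Grp
import Pool.Agent.Lib.MP_eff972_al.Word
import Pool.Agent.Lib.MP_eff972_al.Count

/-!
# Upper bound for the automorphic growth of `HR`
-/

namespace Pool.Agent.Lib.MP_eff972_al

open Finset

namespace HR

lemma abs_det_le (a b c d : ℤ) : |a * d - b * c| ≤ (|a| + |b|) * (|c| + |d|) := by
  calc |a * d - b * c| ≤ |a * d| + |b * c| := abs_sub _ _
    _ = |a| * |d| + |b| * |c| := by rw [abs_mul, abs_mul]
    _ ≤ (|a| + |b|) * (|c| + |d|) := by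
      nlinarith [abs_nonneg a, abs_nonneg b, abs_nonneg c, abs_nonneg d,
        mul_nonneg (abs_nonneg a) (abs_nonneg c), mul_nonneg (abs_nonneg b) (abs_nonneg d)]

lemma rot_norm {p q : ℤ} (h : p ^ 2 + q ^ 2 = 1) (a b : ℤ) :
    |p * a - q * b| + |p * b + q * a| = |a| + |b| := by
  rcases unit_cases h with ⟨hp, hq⟩ | ⟨hp, hq⟩ | ⟨hp, hq⟩ | ⟨hp, hq⟩
  · simp [hp, hq]
  · simp [hp, hq]
  · simp [hp, hq]; ring
  · simp [hp, hq]; ring

/-- norm of the horizontal part -/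
def nm (g : HR) : ℤ := |g.a| + |g.b|

lemma nm_nonneg (g : HR) : 0 ≤ nm g := by unfold nm; positivity

lemma nm_mul_le (x y : HR) : nm (x * y) ≤ nm x + nm y := by
  unfold nm
  simp only [mul_a, mul_b]
  have h1 := abs_add_le x.a (x.p * y.a - x.q * y.b)
  have h2 := abs_add_le x.b (x.p * y.b + x.q * y.a)
  have h3 := rot_norm x.h y.a y.b
  linarith

lemma t_mul_le (x y : HR) : |(x * y).t| ≤ |x.t| + |y.t| + nm x * nm y := by
  unfold nm
  simp only [mul_t]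
  have h1 := abs_add_le (x.t + y.t)
    (x.a * (x.p * y.b + x.q * y.a) - x.b * (x.p * y.a - x.q * y.b))
  have h2 := abs_add_le x.t y.t
  have h3 := rot_norm x.h y.a y.b
  have h4 := abs_det_le x.a x.b (x.p * y.a - x.q * y.b) (x.p * y.b + x.q * y.a)
  rw [h3] at h4
  linarith

lemma list_bound (M : ℤ) (hM : 0 ≤ M) (l : List HR)
    (hl : ∀ x ∈ l, nm x ≤ M ∧ |x.t| ≤ M) :
    nm l.prod ≤ M * l.length ∧ |l.prod.t| ≤ M * l.length + (M * l.length) ^ 2 := by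
  induction l with
  | nil => simp [nm]
  | cons x l ih =>
    have hx := hl x (by simp)
    have ih' := ih (fun y hy => hl y (by simp [hy]))
    rw [List.prod_cons, List.length_cons]
    push_cast
    have h1 := nm_mul_le x l.prod
    have h2 := t_mul_le x l.prod
    have h3 : nm x * nm l.prod ≤ M * (M * l.length) := by
      apply mul_le_mul hx.1 ih'.1 (nm_nonneg _) hM
    constructor
    · linarith
    · have h4 : (0 : ℤ) ≤ l.length := by positivity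
      nlinarith [mul_nonneg hM hM, mul_nonneg (mul_nonneg hM hM) h4]

lemma ball_bound (S : Set HR) (hfin : S.Finite) (hS : Subgroup.closure S = ⊤) :
    ∃ M : ℕ, ∀ (n : ℕ) (g : HR), wordLength S g ≤ n →
      nm g ≤ M * n ∧ |g.t| ≤ M * n + (M * n : ℤ) ^ 2 := by
  obtain ⟨M, hM⟩ : ∃ M : ℕ, ∀ x ∈ S, nm x ≤ M ∧ |x.t| ≤ M := by
    obtain ⟨B, hB⟩ := (hfin.image (fun x => nm x + |x.t|)).bddAbove
    refine ⟨B.toNat, fun x hx => ?_⟩
    have h1 : nm x + |x.t| ≤ B := hB ⟨x, hx, rfl⟩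
    have h2 : B ≤ B.toNat := Int.self_le_toNat B
    have h3 := nm_nonneg x
    have h4 := abs_nonneg x.t
    constructor <;> linarith
  refine ⟨M, fun n g hg => ?_⟩
  obtain ⟨l, hl, hl', hp⟩ := exists_list_length hS g
  have hl'' : ∀ x ∈ l, nm x ≤ M ∧ |x.t| ≤ M := by
    intro x hx
    rcases hl' x hx with h | h
    · exact hM x h
    · have := hM _ h
      have e1 : nm (x⁻¹) = nm x := by
        unfold nm
        have e2 := rot_norm (p := x.p) (q := -x.q) (by have := x.h; linarith [this, neg_sq x.q]) x.a x.b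
        simp only [inv_a, inv_b, abs_neg]
        rw [← e2]
        congr 2 <;> ring
      have e2 : |(x⁻¹).t| = |x.t| := by simp
      rw [e1, e2] at this
      exact this
  have := list_bound M (by positivity) l hl''
  rw [hp, hl] at this
  have hle : ((wordLength S g : ℕ) : ℤ) ≤ n := by exact_mod_cast hg
  have hM0 : (0 : ℤ) ≤ M := by positivity
  have h5 : (M : ℤ) * (wordLength S g : ℕ) ≤ M * n := by gcongr
  have h6 : (0 : ℤ) ≤ (M : ℤ) * (wordLength S g : ℕ) := by positivity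
  constructor
  · linarith [this.1]
  · have : ((M : ℤ) * (wordLength S g : ℕ)) ^ 2 ≤ (M * n) ^ 2 := by gcongr
    linarith [this]

/-! ### the finite set of representatives -/

/-- conjugation by a horizontal element -/
lemma conj_formula (x y : ℤ) (g : HR) :
    hz x y 0 * g * (hz x y 0)⁻¹ =
      ⟨x + g.a - (g.p * x - g.q * y), y + g.b - (g.p * y + g.q * x),
        g.t + (x * g.b - y * g.a) - ((x + g.a) * (g.p * y + g.q * x) -
          (y + g.b) * (g.p * x - g.q * y)), g.p, g.q, g.h⟩ := by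
  ext <;> simp <;> ring

lemma mem_orbit_conj (x y : ℤ) (g : HR) :
    g ∈ MulAction.orbit (MulAut HR) (hz x y 0 * g * (hz x y 0)⁻¹) := by
  refine ⟨MulAut.conj (hz x y 0)⁻¹, ?_⟩
  simp [MulAut.smul_def]
  group

/-- first family: elements with nonzero horizontal part -/
noncomputable def F1 (N : ℕ) : Finset HR :=
  ((Icc 1 N).sigma fun d => ((Icc (-((N / d : ℕ) : ℤ)) ((N / d : ℕ) : ℤ)) ×ˢ
    (Icc (-((N / d : ℕ) : ℤ)) ((N / d : ℕ) : ℤ))) ×ˢ (range (2 * d))).image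
      fun x => hz (x.1 * x.2.1.1) (x.1 * x.2.1.2) x.2.2

/-- second family: the centre -/
noncomputable def F2 (N : ℕ) : Finset HR :=
  (Icc (-(2 * (N : ℤ) ^ 2)) (2 * (N : ℤ) ^ 2)).image fun t => hz 0 0 t

/-- the nontrivial rotations -/
def U (k : Fin 3) : HR :=
  if k = 0 then ⟨0, 0, 0, -1, 0, by norm_num⟩ else
    if k = 1 then ⟨0, 0, 0, 0, 1, by norm_num⟩ else ⟨0, 0, 0, 0, -1, by norm_num⟩

/-- third family: elements with nontrivial rotational part -/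
noncomputable def F3 (N : ℕ) : Finset HR :=
  (((Icc (0 : ℤ) 1) ×ˢ (Icc (0 : ℤ) 1)) ×ˢ ((Icc (-(50 * (N : ℤ) ^ 2)) (50 * (N : ℤ) ^ 2)) ×ˢ
    (Finset.univ : Finset (Fin 3)))).image fun x => hz x.1.1 x.1.2 x.2.1 * U x.2.2

lemma F1_card (N : ℕ) (hN : 1 ≤ N) : (F1 N).card ≤ 18 * N ^ 2 * (Nat.log 2 N + 2) := by
  refine le_trans Finset.card_image_le ?_
  rw [Finset.card_sigma]
  refine le_trans (le_of_eq ?_) (card_bound N hN)
  apply Finset.sum_congr rfl
  intro d _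
  rw [Finset.card_product, Finset.card_product, Finset.card_range, Int.card_Icc]
  have : (((N / d : ℕ) : ℤ) + 1 - -((N / d : ℕ) : ℤ)).toNat = 2 * (N / d) + 1 := by omega
  rw [this]
  ring

lemma F2_card (N : ℕ) : (F2 N).card ≤ 4 * N ^ 2 + 1 := by
  refine le_trans Finset.card_image_le ?_
  rw [Int.card_Icc]
  have h : (N : ℤ) ^ 2 = ((N ^ 2 : ℕ) : ℤ) := by push_cast; ring
  rw [h]
  omega

lemma F3_card (N : ℕ) : (F3 N).card ≤ 12 * (100 * N ^ 2 + 1) := by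
  refine le_trans Finset.card_image_le ?_
  rw [Finset.card_product, Finset.card_product, Finset.card_product, Int.card_Icc, Int.card_Icc,
    Finset.card_univ, Fintype.card_fin]
  have h : (N : ℤ) ^ 2 = ((N ^ 2 : ℕ) : ℤ) := by push_cast; ring
  rw [h]
  have h2 : (50 * ((N ^ 2 : ℕ) : ℤ) + 1 - -(50 * ((N ^ 2 : ℕ) : ℤ))).toNat = 100 * N ^ 2 + 1 := by
    omega
  rw [h2]
  have h3 : ((1 : ℤ) + 1 - 0).toNat = 2 := by decide
  rw [h3]
  omega

lemma case1 (N : ℕ) (a b t : ℤ) (hab : a ≠ 0 ∨ b ≠ 0) (hN : |a| + |b| ≤ N) :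
    ∃ h ∈ F1 N, hz a b t ∈ MulAction.orbit (MulAut HR) h := by
  set d := Int.gcd a b with hd
  have hdpos : 0 < d := Int.gcd_pos_iff.2 hab
  have hda : (d : ℤ) ∣ a := Int.gcd_dvd_left ..
  have hdb : (d : ℤ) ∣ b := Int.gcd_dvd_right ..
  obtain ⟨a', ha'⟩ := hda
  obtain ⟨b', hb'⟩ := hdb
  have hd0 : (0 : ℤ) < d := by exact_mod_cast hdpos
  have ha0 := abs_nonneg a
  have hb0 := abs_nonneg b
  -- Bezout
  have hbez := Int.gcd_eq_gcd_ab a b
  obtain ⟨k, hk⟩ : ∃ k : ℤ, t % (2 * d) = t - 2 * d * k := ⟨t / (2 * d), by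
    have := Int.emod_add_mul_ediv t (2 * d); linarith⟩
  -- conjugating element
  have hmem := mem_orbit_conj (-(k * Int.gcdB a b)) (k * Int.gcdA a b) (hz a b t)
  have hconj : hz (-(k * Int.gcdB a b)) (k * Int.gcdA a b) 0 * hz a b t *
      (hz (-(k * Int.gcdB a b)) (k * Int.gcdA a b) 0)⁻¹ = hz a b (t % (2 * d)) := by
    rw [conj_formula, hk]
    ext
    · simp
    · simp
    · simp
      rw [← hd] at hbez
      rw [hbez]
      ring
    · simp
    · simp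
  rw [hconj] at hmem
  have hr0 : 0 ≤ t % (2 * d) := Int.emod_nonneg _ (by omega)
  have hr1 : t % (2 * d) < 2 * d := Int.emod_lt_of_pos _ (by omega)
  have hdN : d ≤ N := by
    rcases hab with h | h
    · have : (d : ℤ) ≤ |a| := Int.le_of_dvd (abs_pos.2 h) ((dvd_abs _ _).2 ⟨a', ha'⟩)
      omega
    · have : (d : ℤ) ≤ |b| := Int.le_of_dvd (abs_pos.2 h) ((dvd_abs _ _).2 ⟨b', hb'⟩)
      omega
  have key : ∀ c c' : ℤ, c = d * c' → |c| ≤ N → -((N / d : ℕ) : ℤ) ≤ c' ∧ c' ≤ ((N / d : ℕ) : ℤ) := by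
    intro c c' hc hcN
    have h1 : |c'| ≤ ((N / d : ℕ) : ℤ) := by
      rw [hc, abs_mul, abs_of_pos hd0] at hcN
      push_cast
      rw [Int.le_ediv_iff_mul_le hd0]
      linarith
    exact abs_le.1 h1
  refine ⟨hz a b (t % (2 * d)), ?_, hmem⟩
  rw [F1, Finset.mem_image]
  refine ⟨⟨d, ((a', b'), (t % (2 * d)).toNat)⟩, ?_, ?_⟩
  · rw [Finset.mem_sigma, Finset.mem_product, Finset.mem_product, Finset.mem_Icc, Finset.mem_Icc,
      Finset.mem_Icc, Finset.mem_range]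
    refine ⟨⟨hdpos, hdN⟩, ⟨⟨?_, ?_⟩, ?_⟩⟩
    · exact key a a' ha' (by linarith)
    · exact key b b' hb' (by linarith)
    · show (t % (2 * d)).toNat < 2 * d
      omega
  · ext
    · simp [← ha']
    · simp [← hb']
    · simp [hr0]
    · simp
    · simp

lemma case2 (N : ℕ) (t : ℤ) (ht : |t| ≤ 2 * (N : ℤ) ^ 2) :
    ∃ h ∈ F2 N, hz 0 0 t ∈ MulAction.orbit (MulAut HR) h := by
  refine ⟨hz 0 0 t, ?_, MulAction.mem_orbit_self _⟩
  rw [F2, Finset.mem_image]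
  exact ⟨t, by rw [Finset.mem_Icc]; exact abs_le.1 ht, rfl⟩

lemma case3_bound (N : ℕ) (hN : 1 ≤ N) (g : HR) (hg : nm g ≤ N) (ht : |g.t| ≤ 2 * (N : ℤ) ^ 2)
    (x y : ℤ) (hx : |x| ≤ 2 * N + 1) (hy : |y| ≤ 2 * N + 1) :
    |g.t + (x * g.b - y * g.a) - ((x + g.a) * (g.p * y + g.q * x) -
          (y + g.b) * (g.p * x - g.q * y))| ≤ 50 * (N : ℤ) ^ 2 := by
  have hN' : (1 : ℤ) ≤ N := by exact_mod_cast hN
  unfold nm at hg
  have h1 := abs_det_le x y g.a g.b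
  have h2 := abs_det_le (x + g.a) (y + g.b) (g.p * x - g.q * y) (g.p * y + g.q * x)
  rw [rot_norm g.h] at h2
  have h3 := abs_add_le x g.a
  have h4 := abs_add_le y g.b
  have hx0 := abs_nonneg x
  have hy0 := abs_nonneg y
  have ha0 := abs_nonneg g.a
  have hb0 := abs_nonneg g.b
  have h5 : (|x| + |y|) * (|g.a| + |g.b|) ≤ (4 * N + 2) * N := by
    apply mul_le_mul <;> linarith
  have h6 : (|x + g.a| + |y + g.b|) * (|x| + |y|) ≤ (5 * N + 2) * (4 * N + 2) := by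
    apply mul_le_mul <;> linarith
  have h7 := abs_sub (g.t + (x * g.b - y * g.a)) ((x + g.a) * (g.p * y + g.q * x) -
          (y + g.b) * (g.p * x - g.q * y))
  have h8 := abs_add_le g.t (x * g.b - y * g.a)
  nlinarith

lemma case3 (N : ℕ) (hN : 1 ≤ N) (g : HR) (hg : nm g ≤ N) (ht : |g.t| ≤ 2 * (N : ℤ) ^ 2)
    (hu : ¬ (g.p = 1 ∧ g.q = 0)) :
    ∃ h ∈ F3 N, g ∈ MulAction.orbit (MulAut HR) h := by
  have ha : |g.a| ≤ N := by
    unfold nm at hg; have := abs_nonneg g.b; linarith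
  have hb : |g.b| ≤ N := by
    unfold nm at hg; have := abs_nonneg g.a; linarith
  have ha' := abs_le.1 ha
  have hb' := abs_le.1 hb
  -- it suffices to find the conjugating element
  suffices h : ∃ x y : ℤ, |x| ≤ 2 * N + 1 ∧ |y| ≤ 2 * N + 1 ∧
      (0 ≤ x + g.a - (g.p * x - g.q * y) ∧ x + g.a - (g.p * x - g.q * y) ≤ 1) ∧
      (0 ≤ y + g.b - (g.p * y + g.q * x) ∧ y + g.b - (g.p * y + g.q * x) ≤ 1) by
    obtain ⟨x, y, hx, hy, h1, h2⟩ := h
    have hmem := mem_orbit_conj x y g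
    refine ⟨_, ?_, hmem⟩
    have h3 := case3_bound N hN g hg ht x y hx hy
    rw [conj_formula]
    rw [F3, Finset.mem_image]
    have hk : ∃ k : Fin 3, (U k).p = g.p ∧ (U k).q = g.q ∧ (U k).a = 0 ∧ (U k).b = 0 ∧
        (U k).t = 0 := by
      rcases unit_cases g.h with ⟨hp, hq⟩ | ⟨hp, hq⟩ | ⟨hp, hq⟩ | ⟨hp, hq⟩
      · exact absurd ⟨hp, hq⟩ hu
      · exact ⟨0, by simp [U, hp, hq]⟩
      · exact ⟨1, by simp [U, hp, hq]⟩
      · exact ⟨2, by simp [U, hp, hq]⟩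
    obtain ⟨k, hk1, hk2, hk3, hk4, hk5⟩ := hk
    refine ⟨((x + g.a - (g.p * x - g.q * y), y + g.b - (g.p * y + g.q * x)),
      (g.t + (x * g.b - y * g.a) - ((x + g.a) * (g.p * y + g.q * x) -
          (y + g.b) * (g.p * x - g.q * y)), k)), ?_, ?_⟩
    · rw [Finset.mem_product, Finset.mem_product, Finset.mem_product, Finset.mem_Icc,
        Finset.mem_Icc, Finset.mem_Icc]
      exact ⟨⟨h1, h2⟩, ⟨abs_le.1 h3, Finset.mem_univ _⟩⟩
    · ext
      · simp [hk3, hk4]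
      · simp [hk3, hk4]
      · simp [hk3, hk4, hk5]
      · simp [hk1]
      · simp [hk2]
  rcases unit_cases g.h with ⟨hp, hq⟩ | ⟨hp, hq⟩ | ⟨hp, hq⟩ | ⟨hp, hq⟩
  · exact absurd ⟨hp, hq⟩ hu
  · refine ⟨-(g.a / 2), -(g.b / 2), ?_, ?_, ?_, ?_⟩
    · rw [abs_le]; omega
    · rw [abs_le]; omega
    · rw [hp, hq]; omega
    · rw [hp, hq]; omega
  · refine ⟨g.b - (g.a + g.b) / 2, -((g.a + g.b) / 2), ?_, ?_, ?_, ?_⟩
    · rw [abs_le]; omega
    · rw [abs_le]; omega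
    · rw [hp, hq]; omega
    · rw [hp, hq]; omega
  · refine ⟨-g.b - (g.a - g.b) / 2, (g.a - g.b) / 2, ?_, ?_, ?_, ?_⟩
    · rw [abs_le]; omega
    · rw [abs_le]; omega
    · rw [hp, hq]; omega
    · rw [hp, hq]; omega

/-- all representatives -/
noncomputable def FF (N : ℕ) : Finset HR := by
  classical exact F1 N ∪ F2 N ∪ F3 N

lemma FF_card (N : ℕ) (hN : 1 ≤ N) :
    (FF N).card ≤ 18 * N ^ 2 * (Nat.log 2 N + 2) + (4 * N ^ 2 + 1) + 12 * (100 * N ^ 2 + 1) := by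
  classical
  unfold FF
  have h1 := Finset.card_union_le (F1 N ∪ F2 N) (F3 N)
  have h2 := Finset.card_union_le (F1 N) (F2 N)
  have h3 := F1_card N hN
  have h4 := F2_card N
  have h5 := F3_card N
  omega

lemma FF_covers (N : ℕ) (hN : 1 ≤ N) (g : HR) (hg : nm g ≤ N) (ht : |g.t| ≤ 2 * (N : ℤ) ^ 2) :
    ∃ h ∈ FF N, g ∈ MulAction.orbit (MulAut HR) h := by
  classical
  by_cases hu : g.p = 1 ∧ g.q = 0
  · by_cases hab : g.a ≠ 0 ∨ g.b ≠ 0
    · obtain ⟨h, hh, hm⟩ := case1 N g.a g.b g.t hab hg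
      rw [← eq_hz hu.1 hu.2] at hm
      exact ⟨h, by unfold FF; simp [hh], hm⟩
    · obtain ⟨ha, hb⟩ : g.a = 0 ∧ g.b = 0 := by
        constructor
        · by_contra h; exact hab (Or.inl h)
        · by_contra h; exact hab (Or.inr h)
      obtain ⟨h, hh, hm⟩ := case2 N g.t ht
      have : g = hz 0 0 g.t := by
        rw [eq_hz hu.1 hu.2, ha, hb]; rfl
      rw [← this] at hm
      exact ⟨h, by unfold FF; simp [hh], hm⟩
  · obtain ⟨h, hh, hm⟩ := case3 N hN g hg ht hu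
    exact ⟨h, by unfold FF; simp [hh], hm⟩

theorem upper (S : Set HR) (hfin : S.Finite) (hS : Subgroup.closure S = ⊤) :
    ∃ M : ℕ, 2 ≤ M ∧ ∀ n : ℕ,
      ((fun g : HR => MulAction.orbit (MulAut HR) g) '' {g : HR | wordLength S g ≤ n}).Finite ∧
      autGrowth S n ≤ 1300 * ((M * n + M) ^ 2 * Nat.log 2 (M * n + M)) := by
  obtain ⟨M0, hM0⟩ := ball_bound S hfin hS
  refine ⟨M0 + 2, by omega, fun n => ?_⟩
  set N := (M0 + 2) * n + (M0 + 2) with hN
  have hN1 : 1 ≤ N := by omega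
  have hN2 : 2 ≤ N := by omega
  have hMN : M0 * n ≤ N := by rw [hN]; nlinarith
  have hcov : ∀ g : HR, wordLength S g ≤ n → ∃ h ∈ FF N, g ∈ MulAction.orbit (MulAut HR) h := by
    intro g hg
    obtain ⟨h1, h2⟩ := hM0 n g hg
    have hMN' : (M0 : ℤ) * n ≤ N := by exact_mod_cast hMN
    have hN' : (1 : ℤ) ≤ N := by exact_mod_cast hN1
    apply FF_covers N hN1 g (le_trans h1 hMN')
    have h3 : ((M0 : ℤ) * n) ^ 2 ≤ (N : ℤ) ^ 2 := by gcongr
    nlinarith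
  obtain ⟨hf, hc⟩ := autGrowth_le_card S n (FF N) hcov
  refine ⟨hf, le_trans hc (le_trans (FF_card N hN1) ?_)⟩
  have hlog : 1 ≤ Nat.log 2 N := Nat.log_pos (by norm_num) hN2
  have hNN : 1 ≤ N ^ 2 := Nat.one_le_pow _ _ hN1
  nlinarith [Nat.mul_le_mul hNN hlog, Nat.mul_le_mul (le_refl (N ^ 2)) hlog]

end HR

end Pool.Agent.Lib.MP_eff972_al
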