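import Pool.Agent.Lib.MP_eff972_al.Aut
import Pool.Agent.Lib.MP_eff972_al.Upper

/-!
# Lower bound for the automorphic growth of `HR`
-/

namespace Pool.Agent.Lib.MP_eff972_al

open Finset

namespace HR

/-- the pairwise inequivalent elements -/
def elt (x : Σ _ : ℕ, (ℕ × ℕ) × ℕ) : HR :=
  hz 1 0 0 ^ (x.1 * x.2.1.1) * hz 0 1 0 ^ (x.1 * x.2.1.2) * hz 0 0 1 ^ x.2.2

lemma elt_eq (d a b s : ℕ) : elt ⟨d, ((a, b), s)⟩ =
    hz (d * a) (d * b) (s + (d * a) * (d * b)) := by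
  unfold elt
  rw [hz_pow, hz_pow, hz_pow, hz_mul, hz_mul]
  ext <;> simp
  ring

lemma horizontal_inj {v1 v2 q A B A' B' : ℤ} (hq : q = 1 ∨ q = -1) (hv : v1 ^ 2 + v2 ^ 2 = 1)
    (hA : 0 < A) (hAB : A ≤ B) (hA' : 0 < A') (hAB' : A' ≤ B')
    (h1 : A * v1 - B * q * v2 = A') (h2 : A * v2 + B * q * v1 = B') : A = A' ∧ B = B' := by
  rcases unit_cases hv with ⟨hp, hq'⟩ | ⟨hp, hq'⟩ | ⟨hp, hq'⟩ | ⟨hp, hq'⟩ <;>
    rcases hq with hq | hq <;> subst hp <;> subst hq' <;> subst hq <;> simp at h1 h2 <;>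
    constructor <;> omega

lemma elt_inj (N : ℕ) (i j : Σ _ : ℕ, (ℕ × ℕ) × ℕ) (hi : i ∈ idx N) (hj : j ∈ idx N)
    (h : elt i ∈ MulAction.orbit (MulAut HR) (elt j)) : i = j := by
  obtain ⟨d, ⟨⟨a, b⟩, s⟩⟩ := i
  obtain ⟨d', ⟨⟨a', b'⟩, s'⟩⟩ := j
  simp only [idx, cop, Finset.mem_sigma, Finset.mem_product, Finset.mem_filter, Finset.mem_Icc,
    Finset.mem_range] at hi hj
  obtain ⟨hd, ⟨⟨⟨ha, hb⟩, hco, hab⟩, hs⟩⟩ := hi
  obtain ⟨hd', ⟨⟨⟨ha', hb'⟩, hco', hab'⟩, hs'⟩⟩ := hj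
  obtain ⟨φ, hφ⟩ := h
  rw [elt_eq, elt_eq] at hφ
  have hφ' : φ (hz (d' * a') (d' * b') (s' + (d' * a') * (d' * b'))) =
      hz (d * a) (d * b) (s + (d * a) * (d * b)) := hφ
  obtain ⟨v1, v2, σ, σ', q, hq, hv, hstr⟩ := aut_structure φ
  rw [hstr] at hφ'
  have e1 := congrArg HR.a hφ'
  have e2 := congrArg HR.b hφ'
  have e3 := congrArg HR.t hφ'
  simp only [hz_a, hz_b, hz_t] at e1 e2 e3
  have hda : 0 < d * a := Nat.mul_pos (by omega) (by omega)
  have hda' : 0 < d' * a' := Nat.mul_pos (by omega) (by omega)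
  have hdab : d * a ≤ d * b := Nat.mul_le_mul_left _ hab
  have hdab' : d' * a' ≤ d' * b' := Nat.mul_le_mul_left _ hab'
  obtain ⟨E1, E2⟩ := horizontal_inj (A := d' * a') (B := d' * b') (A' := d * a) (B' := d * b)
    hq hv (by exact_mod_cast hda') (by exact_mod_cast hdab') (by exact_mod_cast hda)
    (by exact_mod_cast hdab) (by linarith) (by linarith)
  have E1' : d' * a' = d * a := by exact_mod_cast E1
  have E2' : d' * b' = d * b := by exact_mod_cast E2
  have hdd : d' = d := by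
    have g1 : Nat.gcd (d' * a') (d' * b') = d' := by rw [Nat.gcd_mul_left, hco', mul_one]
    have g2 : Nat.gcd (d * a) (d * b) = d := by rw [Nat.gcd_mul_left, hco, mul_one]
    rw [← g1, ← g2, E1', E2']
  subst hdd
  have haa : a' = a := Nat.eq_of_mul_eq_mul_left (by omega) E1'
  have hbb : b' = b := Nat.eq_of_mul_eq_mul_left (by omega) E2'
  subst haa
  subst hbb
  have hss : s = s' := by
    have hdz : (0 : ℤ) < d' := by exact_mod_cast (by omega : 0 < d')
    have hs1 : 2 * s ≤ d' := by omega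
    have hs2 : 2 * s' ≤ d' := by omega
    rcases hq with hq | hq
    · subst hq
      have hdvd : (d' : ℤ) ∣ (s : ℤ) - s' := by
        refine ⟨a' * σ + b' * σ', ?_⟩
        linarith
      by_contra hne
      have h1 : (d' : ℤ) ≤ |(s : ℤ) - s'| :=
        Int.le_of_dvd (abs_pos.2 (by omega)) ((dvd_abs _ _).2 hdvd)
      have h2 : |(s : ℤ) - s'| < d' := by
        rw [abs_lt]; omega
      omega
    · subst hq
      have hdvd : (d' : ℤ) ∣ (s : ℤ) + s' := by
        refine ⟨a' * σ + b' * σ' - 2 * a' * (d' * b'), ?_⟩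
        linarith
      by_contra hne
      have h1 : (d' : ℤ) ≤ (s : ℤ) + s' := Int.le_of_dvd (by omega) hdvd
      omega
  subst hss
  rfl

theorem lower (S : Set HR) (hfin : S.Finite) (hS : Subgroup.closure S = ⊤) :
    ∃ L : ℕ, 1 ≤ L ∧ ∀ n : ℕ, (idx n).card ≤ autGrowth S (L * n) := by
  obtain ⟨M, hM, hup⟩ := upper S hfin hS
  refine ⟨wordLength S (hz 1 0 0) + wordLength S (hz 0 1 0) + wordLength S (hz 0 0 1) + 1,
    by omega, fun n => ?_⟩
  apply card_le_autGrowth S _ (idx n) elt (hup _).1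
  · rintro ⟨d, ⟨⟨a, b⟩, s⟩⟩ hi
    simp only [idx, cop, Finset.mem_sigma, Finset.mem_product, Finset.mem_filter, Finset.mem_Icc,
      Finset.mem_range] at hi
    obtain ⟨hd, ⟨⟨⟨ha, hb⟩, hco, hab⟩, hs⟩⟩ := hi
    have h1 : d * a ≤ n := by
      calc d * a ≤ d * (n / d) := Nat.mul_le_mul_left _ ha.2
        _ ≤ n := Nat.mul_div_le n d
    have h2 : d * b ≤ n := by
      calc d * b ≤ d * (n / d) := Nat.mul_le_mul_left _ hb.2
        _ ≤ n := Nat.mul_div_le n d
    have h3 : s ≤ n := by omega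
    unfold elt
    have w1 := wordLength_mul_le hS (hz 1 0 0 ^ (d * a) * hz 0 1 0 ^ (d * b)) (hz 0 0 1 ^ s)
    have w2 := wordLength_mul_le hS (hz 1 0 0 ^ (d * a)) (hz 0 1 0 ^ (d * b))
    have w3 := wordLength_pow_le hS (hz 1 0 0) (d * a)
    have w4 := wordLength_pow_le hS (hz 0 1 0) (d * b)
    have w5 := wordLength_pow_le hS (hz 0 0 1) s
    have w6 : d * a * wordLength S (hz 1 0 0) ≤ n * wordLength S (hz 1 0 0) := by gcongr
    have w7 : d * b * wordLength S (hz 0 1 0) ≤ n * wordLength S (hz 0 1 0) := by gcongr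
    have w8 : s * wordLength S (hz 0 0 1) ≤ n * wordLength S (hz 0 0 1) := by gcongr
    have w9 : (wordLength S (hz 1 0 0) + wordLength S (hz 0 1 0) + wordLength S (hz 0 0 1) + 1) * n
      = n * wordLength S (hz 1 0 0) + n * wordLength S (hz 0 1 0) + n * wordLength S (hz 0 0 1)
        + n := by ring
    rw [w9]
    simp only at *
    omega
  · intro i hi j hj h
    exact elt_inj n i j hi hj h

end HR

end Pool.Agent.Lib.MP_eff972_al
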